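import Mathlib

namespace Pool.Agent.Results.MP_d3a611_gt.NegCurv

/-- The discrete Heisenberg group: `⟨a, b, c⟩` is the matrix with rows
`(1, a, c)`, `(0, 1, b)`, `(0, 0, 1)`. -/
@[ext] structure H where
  a : ℤ
  b : ℤ
  c : ℤ
  deriving DecidableEq

instance : Mul H := ⟨fun x y => ⟨x.a + y.a, x.b + y.b, x.c + y.c + x.a * y.b⟩⟩
instance : One H := ⟨⟨0, 0, 0⟩⟩
instance : Inv H := ⟨fun x => ⟨-x.a, -x.b, -x.c + x.a * x.b⟩⟩

@[simp] theorem mul_a (x y : H) : (x * y).a = x.a + y.a := rfl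
@[simp] theorem mul_b (x y : H) : (x * y).b = x.b + y.b := rfl
@[simp] theorem mul_c (x y : H) : (x * y).c = x.c + y.c + x.a * y.b := rfl
@[simp] theorem one_a : (1 : H).a = 0 := rfl
@[simp] theorem one_b : (1 : H).b = 0 := rfl
@[simp] theorem one_c : (1 : H).c = 0 := rfl
@[simp] theorem inv_a (x : H) : x⁻¹.a = -x.a := rfl
@[simp] theorem inv_b (x : H) : x⁻¹.b = -x.b := rfl
@[simp] theorem inv_c (x : H) : x⁻¹.c = -x.c + x.a * x.b := rfl

instance : Group H := Group.ofLeftAxioms
  (fun x y z => by ext <;> simp <;> ring)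
  (fun x => by ext <;> simp)
  (fun x => by ext <;> simp)

/-- The Cayley graph: `g` is adjacent to `g * s` for `s ∈ S`. -/
def cay (S : Finset H) : SimpleGraph H := SimpleGraph.fromRel fun g h => ∃ s ∈ S, h = g * s

/-- `W₁(μ_x, μ_y)`: the infimum of the transport cost over all couplings of the uniform
measures on the neighbours `x * s` of `x` and `y * t` of `y`; `π s t` is the mass moved from
`x * s` to `y * t`. -/
noncomputable def W1 (S : Finset H) (x y : H) : ℝ :=
  sInf {r : ℝ | ∃ π : H → H → ℝ, (∀ s ∈ S, ∀ t ∈ S, 0 ≤ π s t) ∧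
    (∀ s ∈ S, ∑ t ∈ S, π s t = 1 / S.card) ∧ (∀ t ∈ S, ∑ s ∈ S, π s t = 1 / S.card) ∧
    r = ∑ s ∈ S, ∑ t ∈ S, π s t * ((cay S).dist (x * s) (y * t) : ℝ)}

/-- Ollivier-Ricci curvature. -/
noncomputable def kappa (S : Finset H) (x y : H) : ℝ := 1 - W1 S x y / ((cay S).dist x y : ℝ)

noncomputable def l (x : H) : ℝ := x.a + √2 * x.b

def q (x : H) : ℤ := 2 * x.c - x.a * x.b

theorem l_mul (x y : H) : l (x * y) = l x + l y := by
  simp only [l, mul_a, mul_b]
  push_cast
  ring

theorem l_inv (x : H) : l x⁻¹ = -l x := by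
  simp only [l, inv_a, inv_b]
  push_cast
  ring

theorem l_one : l 1 = 0 := by simp [l]

theorem q_mul (x y : H) : q (x * y) = q x + q y + (x.a * y.b - y.a * x.b) := by
  simp only [q, mul_a, mul_b, mul_c]
  ring

theorem l_inj (x y : H) (h : l x = l y) : x.a = y.a ∧ x.b = y.b := by
  have hb : x.b = y.b := by
    by_contra hb
    have h1 : ((x.b - y.b : ℤ) : ℝ) ≠ 0 := by exact_mod_cast sub_ne_zero.mpr hb
    have h2 : √2 = ((y.a - x.a : ℤ) : ℝ) / ((x.b - y.b : ℤ) : ℝ) := by
      rw [eq_div_iff h1]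
      simp only [l] at h
      push_cast
      linarith
    exact (irrational_sqrt_two.ne_rational _ _) h2
  refine ⟨?_, hb⟩
  simp only [l, hb] at h
  exact_mod_cast add_right_cancel h

theorem adj_iff {S : Finset H} (hS : ∀ s ∈ S, s⁻¹ ∈ S) (h1 : (1 : H) ∉ S) (x y : H) :
    (cay S).Adj x y ↔ ∃ s ∈ S, y = x * s := by
  rw [cay, SimpleGraph.fromRel_adj]
  constructor
  · rintro ⟨-, h | ⟨s, hs, rfl⟩⟩
    · exact h
    · exact ⟨s⁻¹, hS s hs, by simp⟩
  · rintro ⟨s, hs, rfl⟩
    refine ⟨fun e => h1 ?_, Or.inl ⟨s, hs, rfl⟩⟩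
    have : s = 1 := by simpa using e
    exact this ▸ hs

theorem conn {S : Finset H} (hS : ∀ s ∈ S, s⁻¹ ∈ S) (h1 : (1 : H) ∉ S)
    (hg : Subgroup.closure (S : Set H) = ⊤) : (cay S).Connected := by
  have key : ∀ w : H, ∀ x, (cay S).Reachable x (x * w) := by
    intro w
    have hw : w ∈ Subgroup.closure (S : Set H) := hg ▸ Subgroup.mem_top w
    induction hw using Subgroup.closure_induction with
    | mem s hs => exact fun x => ((adj_iff hS h1 x _).mpr ⟨s, hs, rfl⟩).reachable
    | one => exact fun x => by rw [mul_one]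
    | mul u v _ _ hu hv => exact fun x => by rw [← mul_assoc]; exact (hu x).trans (hv _)
    | inv u _ hu => exact fun x => by simpa using (hu (x * u⁻¹)).symm
  have : Nonempty H := ⟨1⟩
  exact ⟨fun x y => by simpa using key (x⁻¹ * y) x⟩

theorem walk_bound {S : Finset H} (hS : ∀ s ∈ S, s⁻¹ ∈ S) (h1 : (1 : H) ∉ S) (g : H)
    (hmax : ∀ s ∈ S, l s ≤ l g) (hq : ∀ s ∈ S, l s = l g → q s ≤ q g) {x y : H}
    (p : (cay S).Walk x y) : l y - l x ≤ l g * p.length ∧ (l y - l x = l g * p.length →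
      y.a = x.a + p.length * g.a ∧ y.b = x.b + p.length * g.b ∧
        q y ≤ q x + p.length * q g + p.length * (x.a * g.b - g.a * x.b)) := by
  induction p with
  | nil => simp
  | @cons u v w h p ih =>
    obtain ⟨s, hs, rfl⟩ := (adj_iff hS h1 _ _).mp h
    rw [l_mul] at ih
    have h2 := hmax s hs
    rw [SimpleGraph.Walk.length_cons]
    push_cast
    refine ⟨by linarith [ih.1], fun e => ?_⟩
    have h3 : l s = l g := by linarith [ih.1]
    obtain ⟨e1, e2, e3⟩ := ih.2 (by linarith)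
    obtain ⟨e4, e5⟩ := l_inj _ _ h3
    have h4 := hq s hs h3
    rw [q_mul] at e3
    simp only [mul_a, mul_b, e4, e5] at e1 e2 e3
    refine ⟨by linarith, by linarith, by nlinarith⟩

theorem pow_coords (g : H) (k : ℕ) :
    (g ^ k).a = k * g.a ∧ (g ^ k).b = k * g.b ∧ q (g ^ k) = k * q g ∧ l (g ^ k) = k * l g := by
  induction k with
  | zero => simp [q, l]
  | succ k ih =>
    obtain ⟨h1, h2, h3, h4⟩ := ih
    rw [pow_succ, q_mul, l_mul, mul_a, mul_b, h1, h2, h3, h4]
    push_cast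
    refine ⟨by ring, by ring, by ring, by ring⟩

theorem result (S : Finset H) (hS : ∀ s ∈ S, s⁻¹ ∈ S) (h1 : (1 : H) ∉ S)
    (hg : Subgroup.closure (S : Set H) = ⊤) :
    ∃ x y : H, (cay S).Adj x y ∧ kappa S x y < 0 := by
  by_contra hcon
  push Not at hcon
  have hc := conn hS h1 hg
  have gen : ∀ φ : H → ℝ, (∀ x y, φ (x * y) = φ x + φ y) → (∀ s ∈ S, φ s ≤ 0) → ∀ w, φ w = 0 := by
    intro φ hφ h w
    have h0 : φ 1 = 0 := by simpa using hφ 1 1
    have hi : ∀ u, φ u⁻¹ = -φ u := fun u => by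
      have := hφ u u⁻¹
      rw [mul_inv_cancel, h0] at this
      linarith
    have hw : w ∈ Subgroup.closure (S : Set H) := hg ▸ Subgroup.mem_top w
    induction hw using Subgroup.closure_induction with
    | mem s hs =>
      have := h _ (hS s hs)
      rw [hi] at this
      linarith [h s hs]
    | one => exact h0
    | mul u v _ _ hu hv => rw [hφ, hu, hv, add_zero]
    | inv u _ hu => rw [hi, hu, neg_zero]
  have hpos : ∃ s ∈ S, 0 < l s := by
    by_contra hn
    push Not at hn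
    have := gen l l_mul hn ⟨1, 0, 0⟩
    simp [l] at this
  have hne : S.Nonempty := by
    obtain ⟨s, hs, -⟩ := hpos
    exact ⟨s, hs⟩
  obtain ⟨g0, hg0, hmax0⟩ := S.exists_max_image l hne
  obtain ⟨g, hgF, hq0⟩ := (S.filter fun s => l s = l g0).exists_max_image q
    ⟨g0, Finset.mem_filter.mpr ⟨hg0, rfl⟩⟩
  obtain ⟨hgS, hgl⟩ := Finset.mem_filter.mp hgF
  have hmax : ∀ s ∈ S, l s ≤ l g := fun s hs => hgl ▸ hmax0 s hs
  have hq : ∀ s ∈ S, l s = l g → q s ≤ q g := fun s hs e =>
    hq0 s (Finset.mem_filter.mpr ⟨hs, e.trans hgl⟩)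
  have hM : 0 < l g := by
    obtain ⟨s, hs, h⟩ := hpos
    exact h.trans_le (hmax s hs)
  have ht : ∃ t ∈ S, 0 < g.a * t.b - t.a * g.b := by
    by_contra hn
    push Not at hn
    have key := gen (fun t => ((g.a * t.b - t.a * g.b : ℤ) : ℝ)) (fun x y => by
      simp only [mul_a, mul_b]
      push_cast
      ring) (fun s hs => by exact_mod_cast hn s hs)
    have e1 := key ⟨1, 0, 0⟩
    have e2 := key ⟨0, 1, 0⟩
    simp at e1 e2
    simp [l, e1, e2] at hM
  obtain ⟨t, htS, hω⟩ := ht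
  obtain ⟨Q, hQ⟩ : ∃ Q : ℕ, ∀ s ∈ S, |q s| ≤ Q := by
    refine ⟨S.sup fun s => (q s).natAbs, fun s hs => ?_⟩
    have := Finset.le_sup (f := fun s => (q s).natAbs) hs
    rw [Int.abs_eq_natAbs]
    exact_mod_cast this
  have hlip : ∀ x y, l y - l x ≤ l g * (cay S).dist x y := by
    intro x y
    obtain ⟨p, hp⟩ := (hc.preconnected x y).exists_walk_length_eq_dist
    rw [← hp]
    exact (walk_bound hS h1 g hmax hq p).1
  let f : H → ℝ := fun w => S.inf' hne fun s => l s + l g * (cay S).dist s w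
  have f1 : ∀ w w', f w' - f w ≤ l g * (cay S).dist w w' := by
    intro w w'
    obtain ⟨s, hs, e⟩ := S.exists_mem_eq_inf' hne fun s => l s + l g * (cay S).dist s w
    have h2 : f w' ≤ l s + l g * (cay S).dist s w' :=
      Finset.inf'_le (fun s => l s + l g * (cay S).dist s w') hs
    have h3 : ((cay S).dist s w' : ℝ) ≤ (cay S).dist s w + (cay S).dist w w' := by
      exact_mod_cast hc.dist_triangle
    have h4 : f w = l s + l g * (cay S).dist s w := e
    nlinarith
  have f2 : ∀ s ∈ S, f s ≤ l s := fun s hs => by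
    have h2 : f s ≤ l s + l g * (cay S).dist s s :=
      Finset.inf'_le (fun u => l u + l g * (cay S).dist u s) hs
    simpa using h2
  have f3 : ∀ w, l w ≤ f w := fun w => by
    apply Finset.le_inf'
    intro s _
    linarith [hlip s w]
  have f4 : l (g ^ (4 * Q + 1) * t) < f (g ^ (4 * Q + 1) * t) := by
    rw [Finset.lt_inf'_iff]
    intro s hs
    refine lt_of_le_of_ne (by linarith [hlip s (g ^ (4 * Q + 1) * t)]) (fun e => ?_)
    obtain ⟨p, hp⟩ := (hc.preconnected s (g ^ (4 * Q + 1) * t)).exists_walk_length_eq_dist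
    rw [← hp] at e
    obtain ⟨e1, e2, e3⟩ := (walk_bound hS h1 g hmax hq p).2 (by linarith)
    obtain ⟨k1, k2, k3, k4⟩ := pow_coords g (4 * Q + 1)
    rw [l_mul, k4] at e
    rw [q_mul, k1, k2, k3] at e3
    rw [mul_a, k1] at e1
    rw [mul_b, k2] at e2
    generalize p.length = m at e e1 e2 e3
    have b1 := hmax t htS
    have b2 := hmax s hs
    have b3 := hmax _ (hS t htS)
    have b4 := hmax _ (hS s hs)
    rw [l_inv] at b3 b4
    have d1 : (m : ℝ) ≤ ((4 * Q + 1 : ℕ) : ℝ) + 2 := by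
      by_contra hlt
      nlinarith
    have d2 : ((4 * Q + 1 : ℕ) : ℝ) ≤ m + 2 := by
      by_contra hlt
      nlinarith
    have d3 : (m : ℤ) ≤ ((4 * Q + 1 : ℕ) : ℤ) + 2 := by exact_mod_cast d1
    have d4 : ((4 * Q + 1 : ℕ) : ℤ) ≤ m + 2 := by exact_mod_cast d2
    have q1 := abs_le.mp (hQ s hs)
    have q2 := abs_le.mp (hQ t htS)
    have q3 := abs_le.mp (hQ g hgS)
    have hk : ((4 * Q + 1 : ℕ) : ℤ) = 4 * (Q : ℤ) + 1 := by push_cast; ring
    generalize ((4 * Q + 1 : ℕ) : ℤ) = k at *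
    have e4 : s.a * g.b - g.a * s.b = -(g.a * t.b - t.a * g.b) := by
      have a1 : s.a = k * g.a + t.a - m * g.a := by linarith
      have a2 : s.b = k * g.b + t.b - m * g.b := by linarith
      rw [a1, a2]
      ring
    rw [e4] at e3
    have e5 : k * g.a * t.b - t.a * (k * g.b) = k * (g.a * t.b - t.a * g.b) := by ring
    rw [e5] at e3
    generalize g.a * t.b - t.a * g.b = ω at *
    have hm0 : (0 : ℤ) ≤ m := Int.natCast_nonneg m
    have e6 : (m - k) * q g ≤ 2 * Q := by nlinarith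
    nlinarith
  have hcard : (0 : ℝ) < S.card := by exact_mod_cast hne.card_pos
  have step : ∀ x, ∑ u ∈ S, f (x * g * u) - ∑ s ∈ S, f (x * s) ≤ l g * S.card := by
    intro x
    have hadj : (cay S).Adj x (x * g) := (adj_iff hS h1 _ _).mpr ⟨g, hgS, rfl⟩
    have hk := hcon _ _ hadj
    rw [kappa, SimpleGraph.dist_eq_one_iff_adj.mpr hadj] at hk
    have hW : W1 S x (x * g) ≤ 1 := by simpa using hk
    have hlow : (∑ u ∈ S, f (x * g * u) - ∑ s ∈ S, f (x * s)) / (l g * S.card) ≤
        W1 S x (x * g) := by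
      apply le_csInf
      · refine ⟨_, fun _ _ => 1 / S.card / S.card, fun _ _ _ _ => by positivity, ?_, ?_, rfl⟩
        · intro s _
          rw [Finset.sum_const, nsmul_eq_mul]
          field_simp
        · intro s _
          rw [Finset.sum_const, nsmul_eq_mul]
          field_simp
      · rintro r ⟨π, p0, p1, p2, rfl⟩
        rw [div_le_iff₀ (by positivity)]
        have a1 : ∑ u ∈ S, f (x * g * u) =
            S.card * ∑ s ∈ S, ∑ u ∈ S, π s u * f (x * g * u) := by
          rw [Finset.sum_comm, Finset.mul_sum]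
          refine Finset.sum_congr rfl fun u hu => ?_
          rw [← Finset.sum_mul, p2 u hu]
          field_simp
        have a2 : ∑ s ∈ S, f (x * s) = S.card * ∑ s ∈ S, ∑ u ∈ S, π s u * f (x * s) := by
          rw [Finset.mul_sum]
          refine Finset.sum_congr rfl fun s hs => ?_
          rw [← Finset.sum_mul, p1 s hs]
          field_simp
        have a3 : ∑ s ∈ S, ∑ u ∈ S, π s u * f (x * g * u) - ∑ s ∈ S, ∑ u ∈ S, π s u * f (x * s) ≤
            l g * ∑ s ∈ S, ∑ u ∈ S, π s u * ((cay S).dist (x * s) (x * g * u) : ℝ) := by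
          rw [← Finset.sum_sub_distrib, Finset.mul_sum]
          refine Finset.sum_le_sum fun s hs => ?_
          rw [← Finset.sum_sub_distrib, Finset.mul_sum]
          refine Finset.sum_le_sum fun u hu => ?_
          have := mul_le_mul_of_nonneg_left (f1 (x * s) (x * g * u)) (p0 s hs u hu)
          linarith
        rw [a1, a2]
        nlinarith
    have := hlow.trans hW
    rwa [div_le_one (by positivity)] at this
  have iter : ∀ k : ℕ, ∑ u ∈ S, f (g ^ k * u) ≤ ∑ s ∈ S, l s + k * (l g * S.card) := by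
    intro k
    induction k with
    | zero => simpa using Finset.sum_le_sum f2
    | succ k ih =>
      have := step (g ^ k)
      rw [pow_succ]
      push_cast
      linarith
  have low : ∑ u ∈ S, l (g ^ (4 * Q + 1) * u) < ∑ u ∈ S, f (g ^ (4 * Q + 1) * u) :=
    Finset.sum_lt_sum (fun u _ => f3 _) ⟨t, htS, f4⟩
  simp only [l_mul, (pow_coords g (4 * Q + 1)).2.2.2, Finset.sum_add_distrib, Finset.sum_const,
    nsmul_eq_mul] at low
  have := iter (4 * Q + 1)
  nlinarith

end Pool.Agent.Results.MP_d3a611_gt.NegCurv
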